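import Pool.Agent.W805.LR.Stm5

/-!
# PD-MA: averages over matchings (part of helper805's project PD)
-/

set_option autoImplicit false

namespace Pool.Agent.W57.PD.Match

open Finset Equiv
open Pool.Agent.W805.PD

section basic

variable {V : Type} [Fintype V] [DecidableEq V]

lemma mem_matchings {E : Finset V} {α : Perm V} :
    α ∈ matchings E ↔ α * α = 1 ∧ α.support = E := by
  unfold matchings
  rw [mem_filter]
  simp

lemma inv_app {E : Finset V} {α : Perm V} (h : α ∈ matchings E) (x : V) : α (α x) = x := by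
  have := (mem_matchings.1 h).1
  have h2 := congrArg (fun g : Perm V => g x) this
  simpa using h2

lemma moves {E : Finset V} {α : Perm V} (h : α ∈ matchings E) (x : V) : x ∈ E ↔ α x ≠ x := by
  rw [← (mem_matchings.1 h).2, Perm.mem_support]

lemma matchings_empty : matchings (∅ : Finset V) = {1} := by
  ext α
  rw [mem_matchings, mem_singleton, Perm.support_eq_empty_iff]
  constructor
  · exact fun h => h.2
  · rintro rfl
    exact ⟨one_mul _, rfl⟩

lemma mem_iff_app {E : Finset V} {α : Perm V} :
    α ∈ matchings E ↔ (∀ x, α (α x) = x) ∧ ∀ x, x ∈ E ↔ α x ≠ x := by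
  constructor
  · exact fun h => ⟨inv_app h, moves h⟩
  · rintro ⟨h1, h2⟩
    rw [mem_matchings]
    refine ⟨?_, ?_⟩
    · ext x
      simpa using h1 x
    · ext x
      rw [Perm.mem_support, h2 x]

/-- removing the pair `e`, `s` -/
lemma remove_pair {E : Finset V} {e s : V} {α : Perm V} (h : α ∈ matchings E)
    (hs : α e = s) : swap e s * α ∈ matchings ((E.erase e).erase s) := by
  have hse : α s = e := by rw [← hs]; exact inv_app h e
  have key : ∀ x, x ≠ e → x ≠ s → (swap e s * α) x = α x := by
    intro x h1 h2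
    rw [Perm.mul_apply]
    apply swap_apply_of_ne_of_ne
    · intro h3
      apply h2
      rw [← hse] at h3
      exact α.injective h3
    · intro h3
      apply h1
      rw [← hs] at h3
      exact α.injective h3
  have he : (swap e s * α) e = e := by rw [Perm.mul_apply, hs, swap_apply_right]
  have hss : (swap e s * α) s = s := by rw [Perm.mul_apply, hse, swap_apply_left]
  rw [mem_iff_app]
  constructor
  · intro x
    by_cases h1 : x = e
    · rw [h1, he, he]
    by_cases h2 : x = s
    · rw [h2, hss, hss]
    rw [key x h1 h2, key (α x), inv_app h]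
    · intro h3
      apply h2
      rw [← hse] at h3
      exact α.injective h3
    · intro h3
      apply h1
      rw [← hs] at h3
      exact α.injective h3
  · intro x
    rw [mem_erase, mem_erase]
    by_cases h1 : x = e
    · subst h1
      simp [he]
    by_cases h2 : x = s
    · subst h2
      simp [hss]
    rw [key x h1 h2, moves h x]
    tauto

/-- adding the pair `e`, `s` -/
lemma add_pair {E : Finset V} {e s : V} {α : Perm V} (he : e ∈ E) (hs : s ∈ E.erase e)
    (h : α ∈ matchings ((E.erase e).erase s)) :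
    swap e s * α ∈ matchings E ∧ (swap e s * α) e = s := by
  have hne : s ≠ e := (mem_erase.1 hs).1
  have hsE : s ∈ E := (mem_erase.1 hs).2
  have h1 : α e = e := by
    by_contra h2
    have := (moves h e).2 h2
    simp at this
  have h2 : α s = s := by
    by_contra h2
    have := (moves h s).2 h2
    simp at this
  have key : ∀ x, x ≠ e → x ≠ s → (swap e s * α) x = α x := by
    intro x h3 h4
    rw [Perm.mul_apply]
    apply swap_apply_of_ne_of_ne
    · intro h5
      apply h3
      rw [← h1] at h5
      exact α.injective h5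
    · intro h5
      apply h4
      rw [← h2] at h5
      exact α.injective h5
  have he' : (swap e s * α) e = s := by rw [Perm.mul_apply, h1, swap_apply_left]
  have hs' : (swap e s * α) s = e := by rw [Perm.mul_apply, h2, swap_apply_right]
  refine ⟨?_, he'⟩
  rw [mem_iff_app]
  constructor
  · intro x
    by_cases h3 : x = e
    · rw [h3, he', hs']
    by_cases h4 : x = s
    · rw [h4, hs', he']
    rw [key x h3 h4, key (α x), inv_app h]
    · intro h5
      apply h3
      rw [← h1] at h5
      exact α.injective h5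
    · intro h5
      apply h4
      rw [← h2] at h5
      exact α.injective h5
  · intro x
    by_cases h3 : x = e
    · subst h3
      rw [he']
      exact ⟨fun _ => hne, fun _ => he⟩
    by_cases h4 : x = s
    · subst h4
      rw [hs']
      exact ⟨fun _ => hne.symm, fun _ => hsE⟩
    rw [key x h3 h4, ← moves h x, mem_erase, mem_erase]
    tauto

lemma sum_rec (E : Finset V) (e : V) (he : e ∈ E) (F : Perm V → ℝ) :
    ∑ α ∈ matchings E, F α =
      ∑ s ∈ E.erase e, ∑ α ∈ matchings ((E.erase e).erase s), F (swap e s * α) := by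
  rw [← Finset.sum_fiberwise_of_maps_to (s := matchings E) (t := E.erase e) (g := fun α => α e)]
  · apply Finset.sum_congr rfl
    intro s hs
    refine Finset.sum_bij' (fun α _ => swap e s * α) (fun α _ => swap e s * α) ?_ ?_ ?_ ?_ ?_
    · intro α hα
      rw [mem_filter] at hα
      exact remove_pair hα.1 hα.2
    · intro α hα
      rw [mem_filter]
      exact add_pair he hs hα
    · intro α _
      rw [← mul_assoc, swap_mul_self, one_mul]
    · intro α _
      rw [← mul_assoc, swap_mul_self, one_mul]
    · intro α _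
      rw [← mul_assoc, swap_mul_self, one_mul]
  · intro α hα
    rw [mem_erase]
    have h1 := (moves hα e).1 he
    refine ⟨h1, ?_⟩
    rw [moves hα, inv_app hα]
    exact h1.symm

/-- the set of fixed point free involutions of `X` -/
def ffi (X : Type) [Fintype X] [DecidableEq X] : Finset (Perm X) :=
  univ.filter fun τ => (∀ x, τ (τ x) = x) ∧ ∀ x, τ x ≠ x

variable {X : Type} [Fintype X] [DecidableEq X]

lemma ext_mem (y : X ↪ V) {τ : Perm X} (hτ : τ ∈ ffi X) :
    τ.viaFintypeEmbedding y ∈ matchings (univ.image y) := by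
  unfold ffi at hτ
  rw [mem_filter] at hτ
  obtain ⟨-, h1, h2⟩ := hτ
  rw [mem_iff_app]
  constructor
  · intro v
    by_cases hv : v ∈ Set.range y
    · obtain ⟨x, rfl⟩ := hv
      rw [Perm.viaFintypeEmbedding_apply_image, Perm.viaFintypeEmbedding_apply_image, h1]
    · rw [Perm.viaFintypeEmbedding_apply_notMem_range _ _ hv,
        Perm.viaFintypeEmbedding_apply_notMem_range _ _ hv]
  · intro v
    by_cases hv : v ∈ Set.range y
    · obtain ⟨x, rfl⟩ := hv
      rw [Perm.viaFintypeEmbedding_apply_image]
      simp only [mem_image, mem_univ, true_and, exists_apply_eq_apply, ne_eq, true_iff]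
      exact fun h => h2 x (y.injective h)
    · rw [Perm.viaFintypeEmbedding_apply_notMem_range _ _ hv]
      simp only [mem_image, mem_univ, true_and, ne_eq, not_true_eq_false, iff_false]
      exact hv

lemma ext_inj (y : X ↪ V) {τ τ' : Perm X}
    (h : τ.viaFintypeEmbedding y = τ'.viaFintypeEmbedding y) : τ = τ' := by
  ext x
  apply y.injective
  rw [← Perm.viaFintypeEmbedding_apply_image, h, Perm.viaFintypeEmbedding_apply_image]

lemma ext_surj (y : X ↪ V) {α : Perm V} (hα : α ∈ matchings (univ.image y)) :
    ∃ τ ∈ ffi X, τ.viaFintypeEmbedding y = α := by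
  have hr : ∀ x, ∃ x', y x' = α (y x) := by
    intro x
    have h1 : α (y x) ∈ univ.image y := by
      rw [moves hα, inv_app hα]
      exact ((moves hα (y x)).1 (by simp)).symm
    simpa using h1
  choose f hf using hr
  have hff : ∀ x, f (f x) = x := by
    intro x
    apply y.injective
    rw [hf, hf, inv_app hα]
  refine ⟨⟨f, f, hff, hff⟩, ?_, ?_⟩
  · unfold ffi
    rw [mem_filter]
    refine ⟨mem_univ _, hff, ?_⟩
    intro x h
    have h1 := (moves hα (y x)).1 (by simp)
    apply h1
    rw [← hf]
    exact congrArg y h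
  · ext v
    by_cases hv : v ∈ Set.range y
    · obtain ⟨x, rfl⟩ := hv
      rw [Perm.viaFintypeEmbedding_apply_image]
      exact hf x
    · rw [Perm.viaFintypeEmbedding_apply_notMem_range _ _ hv]
      by_contra h
      apply hv
      have := (moves hα v).2 (fun h' => h h'.symm)
      simpa using this

lemma sum_ext (y : X ↪ V) (F : Perm V → ℝ) :
    ∑ τ ∈ ffi X, F (τ.viaFintypeEmbedding y) = ∑ α ∈ matchings (univ.image y), F α := by
  refine Finset.sum_bij (fun τ _ => τ.viaFintypeEmbedding y) (fun τ hτ => ext_mem y hτ)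
    (fun τ _ τ' _ h => ext_inj y h) ?_ (fun _ _ => rfl)
  intro α hα
  obtain ⟨τ, h1, h2⟩ := ext_surj y hα
  exact ⟨τ, h1, h2⟩

lemma card_ext (y : X ↪ V) : (matchings (univ.image y)).card = (ffi X).card := by
  have := sum_ext y (fun _ => (1 : ℝ))
  rw [Finset.sum_const, Finset.sum_const, nsmul_eq_mul, nsmul_eq_mul, mul_one, mul_one] at this
  exact_mod_cast this.symm

/-- the number of matchings of `n` points -/
def cM (n : ℕ) : ℕ := (ffi (Fin n)).card

/-- The cardinality only depends on the number of points. -/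
lemma card_eq (E : Finset V) : (matchings E).card = cM E.card := by
  obtain ⟨e⟩ : Nonempty (Fin E.card ≃ E) := ⟨E.equivFin.symm⟩
  let y : Fin E.card ↪ V := ⟨fun i => (e i : V), fun i j hij => e.injective (Subtype.ext hij)⟩
  have hy : univ.image y = E := by
    ext v
    simp only [mem_image, mem_univ, true_and]
    constructor
    · rintro ⟨i, rfl⟩
      exact (e i).2
    · intro hv
      refine ⟨e.symm ⟨v, hv⟩, ?_⟩
      show ((e (e.symm ⟨v, hv⟩) : E) : V) = v
      rw [Equiv.apply_symm_apply]
  have := card_ext y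
  rw [hy] at this
  exact this

lemma nonempty : ∀ (n : ℕ) (E : Finset V), E.card = 2 * n → (matchings E).Nonempty := by
  intro n
  induction n with
  | zero =>
    intro E hE
    have : E = ∅ := by rw [← Finset.card_eq_zero]; omega
    rw [this, matchings_empty]
    exact singleton_nonempty _
  | succ n ih =>
    intro E hE
    obtain ⟨e, he⟩ : E.Nonempty := by rw [← Finset.card_pos]; omega
    have h1 : (E.erase e).card = 2 * n + 1 := by rw [card_erase_of_mem he]; omega
    obtain ⟨s, hs⟩ : (E.erase e).Nonempty := by rw [← Finset.card_pos]; omega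
    have h2 : ((E.erase e).erase s).card = 2 * n := by rw [card_erase_of_mem hs]; omega
    obtain ⟨α, hα⟩ := ih _ h2
    exact ⟨_, (add_pair he hs hα).1⟩

lemma card_pos' {E : Finset V} (h : Even E.card) : 0 < (matchings E).card := by
  obtain ⟨k, hk⟩ := h
  rw [Finset.card_pos]
  exact nonempty k E (by omega)

lemma recursion (E : Finset V) (e : V) (F : Perm V → ℝ) (hE : Even E.card) (he : e ∈ E) :
    avgM E F = (∑ s ∈ E.erase e, avgM ((E.erase e).erase s) fun α => F (swap e s * α)) /
      ((E.card : ℝ) - 1) := by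
  have hc : ∀ s ∈ E.erase e, ((E.erase e).erase s).card = E.card - 2 := by
    intro s hs
    rw [card_erase_of_mem hs, card_erase_of_mem he]
    omega
  have h0 : 0 < E.card := card_pos.2 ⟨e, he⟩
  have h2 : 2 ≤ E.card := by
    obtain ⟨k, hk⟩ := hE
    omega
  have hEm : Even (E.card - 2) := by
    obtain ⟨k, hk⟩ := hE
    exact ⟨k - 1, by omega⟩
  set c : ℝ := (cM (E.card - 2) : ℝ) with hcdef
  obtain ⟨s0, hs0⟩ : (E.erase e).Nonempty := by
    rw [← Finset.card_pos, card_erase_of_mem he]; omega
  have hcpos : 0 < c := by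
    have h3 := card_pos' (E := (E.erase e).erase s0) (by rw [hc s0 hs0]; exact hEm)
    rw [card_eq, hc s0 hs0] at h3
    rw [hcdef]
    exact_mod_cast h3
  have e1 : ∀ s ∈ E.erase e, avgM ((E.erase e).erase s) (fun α => F (swap e s * α)) =
      (∑ α ∈ matchings ((E.erase e).erase s), F (swap e s * α)) / c := by
    intro s hs
    unfold avgM
    rw [card_eq, hc s hs]
  have e2 : ((matchings E).card : ℝ) = ((E.card : ℝ) - 1) * c := by
    have h3 := sum_rec E e he (fun _ => (1 : ℝ))
    simp only [Finset.sum_const, nsmul_eq_mul, mul_one] at h3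
    rw [h3, Finset.sum_congr rfl (g := fun _ => c), Finset.sum_const, card_erase_of_mem he,
      nsmul_eq_mul, Nat.cast_sub (by omega), Nat.cast_one]
    intro s hs
    rw [card_eq, hc s hs]
  rw [Finset.sum_congr rfl e1, ← Finset.sum_div, ← sum_rec E e he F]
  unfold avgM
  rw [e2, div_div, mul_comm c]

/-! ### random pairs -/

end basic

section pairs

variable {X : Type} [Fintype X] [DecidableEq X]

lemma cycleType_ffi {τ : Perm X} (h : τ ∈ ffi X) :
    τ.cycleType = Multiset.replicate (Fintype.card X / 2) 2 := by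
  unfold ffi at h
  rw [mem_filter] at h
  obtain ⟨-, h1, h2⟩ := h
  have hsq : τ ^ 2 = 1 := by
    ext x
    rw [pow_two]
    simpa using h1 x
  have hsupp : τ.support = univ := by
    ext x
    simp [h2 x]
  have hall : ∀ c ∈ τ.cycleType, c = 2 := by
    intro c hc
    have h3 := Perm.two_le_of_mem_cycleType hc
    have h4 : c ∣ orderOf τ := Perm.dvd_of_mem_cycleType hc
    have h5 : c ∣ 2 := h4.trans (orderOf_dvd_of_pow_eq_one hsq)
    have := Nat.le_of_dvd two_pos h5
    omega
  have hrep := Multiset.eq_replicate_of_mem hall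
  have hsum := Perm.sum_cycleType τ
  rw [hsupp, Finset.card_univ] at hsum
  rw [hrep, Multiset.sum_replicate, smul_eq_mul] at hsum
  rw [hrep]
  congr 1
  omega

lemma ffi_conj {τ τ' : Perm X} (h : τ ∈ ffi X) (h' : τ' ∈ ffi X) :
    ∃ π : Perm X, π * τ * π⁻¹ = τ' := by
  have : IsConj τ τ' := by
    rw [Perm.isConj_iff_cycleType_eq, cycleType_ffi h, cycleType_ffi h']
  rwa [isConj_iff] at this

lemma conj_ffi {τ : Perm X} (h : τ ∈ ffi X) (π : Perm X) : π * τ * π⁻¹ ∈ ffi X := by
  unfold ffi at h ⊢
  rw [mem_filter] at h ⊢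
  obtain ⟨-, h1, h2⟩ := h
  refine ⟨mem_univ _, ?_, ?_⟩
  · intro x
    simp [h1]
  · intro x hx
    apply h2 (π⁻¹ x)
    apply π.injective
    simpa using hx

/-- averaging over the conjugates -/
lemma avg_conj {τ : Perm X} (h : τ ∈ ffi X) (G : Perm X → ℝ) :
    (∑ π : Perm X, G (π * τ * π⁻¹)) / Fintype.card (Perm X) =
      (∑ τ' ∈ ffi X, G τ') / (ffi X).card := by
  set c : ℕ := (univ.filter fun π : Perm X => π * τ * π⁻¹ = τ).card with hc
  have hfib : ∀ τ' ∈ ffi X, (univ.filter fun π : Perm X => π * τ * π⁻¹ = τ').card = c := by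
    intro τ' hτ'
    obtain ⟨π0, hπ0⟩ := ffi_conj h hτ'
    rw [hc]
    refine Finset.card_bij' (fun π _ => π0⁻¹ * π) (fun π _ => π0 * π) ?_ ?_ ?_ ?_
    · intro π hπ
      rw [mem_filter] at hπ ⊢
      refine ⟨mem_univ _, ?_⟩
      rw [mul_inv_rev, inv_inv]
      calc π0⁻¹ * π * τ * (π⁻¹ * π0) = π0⁻¹ * (π * τ * π⁻¹) * π0 := by group
        _ = π0⁻¹ * τ' * π0 := by rw [hπ.2]
        _ = τ := by rw [← hπ0]; group
    · intro π hπ
      rw [mem_filter] at hπ ⊢
      refine ⟨mem_univ _, ?_⟩
      rw [mul_inv_rev]
      calc π0 * π * τ * (π⁻¹ * π0⁻¹) = π0 * (π * τ * π⁻¹) * π0⁻¹ := by group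
        _ = π0 * τ * π0⁻¹ := by rw [hπ.2]
        _ = τ' := hπ0
    · intro π _
      simp
    · intro π _
      simp
  have hsum : ∀ G : Perm X → ℝ, ∑ π : Perm X, G (π * τ * π⁻¹) = c * ∑ τ' ∈ ffi X, G τ' := by
    intro G
    rw [← Finset.sum_fiberwise_of_maps_to (s := (univ : Finset (Perm X))) (t := ffi X)
      (g := fun π => π * τ * π⁻¹) (fun π _ => conj_ffi h π), Finset.mul_sum]
    apply Finset.sum_congr rfl
    intro τ' hτ'
    rw [Finset.sum_congr rfl (g := fun _ => G τ'), Finset.sum_const, hfib τ' hτ', nsmul_eq_mul]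
    intro π hπ
    rw [mem_filter] at hπ
    rw [hπ.2]
  have hcard : (Fintype.card (Perm X) : ℝ) = c * (ffi X).card := by
    have := hsum (fun _ => 1)
    simpa using this
  have hpos : (0 : ℝ) < Fintype.card (Perm X) := by
    exact_mod_cast Fintype.card_pos
  have hc0 : (c : ℝ) ≠ 0 := by
    intro h0
    rw [hcard, h0, zero_mul] at hpos
    exact lt_irrefl _ hpos
  rw [hsum, hcard, mul_div_mul_left _ _ hc0]

/-- the standard matching of `Fin K × Bool` -/
def flip (K : ℕ) : Perm (Fin K × Bool) :=
  ⟨fun x => (x.1, !x.2), fun x => (x.1, !x.2), fun x => by simp, fun x => by simp⟩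

lemma flip_apply {K : ℕ} (x : Fin K × Bool) : flip K x = (x.1, !x.2) := rfl

lemma flip_mem (K : ℕ) : flip K ∈ ffi (Fin K × Bool) := by
  unfold ffi
  rw [mem_filter]
  refine ⟨mem_univ _, ?_, ?_⟩
  · intro x
    simp [flip_apply]
  · rintro ⟨i, b⟩ h
    rw [flip_apply] at h
    simp at h

variable {V : Type} [Fintype V] [DecidableEq V]

lemma prod_pairs {K : ℕ} (z : Fin K × Bool ↪ V) :
    prodSw (fun i => (z (i, false), z (i, true))) = (flip K).viaFintypeEmbedding z := by
  unfold prodSw
  set f : Fin K → Perm V := fun i => swap (z (i, false)) (z (i, true)) with hf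
  have hne : ∀ i, z (i, false) ≠ z (i, true) := by
    intro i h
    have := z.injective h
    simp at this
  have hsupp : ∀ i v, v ∈ (f i).support → ∃ b, v = z (i, b) := by
    intro i v hv
    rw [hf] at hv
    simp only at hv
    rw [Perm.support_swap (hne i)] at hv
    simp only [mem_insert, mem_singleton] at hv
    rcases hv with h | h
    · exact ⟨false, h⟩
    · exact ⟨true, h⟩
  have hdis : (List.ofFn f).Pairwise Perm.Disjoint := by
    rw [List.pairwise_ofFn]
    intro i j hij
    rw [Perm.disjoint_iff_disjoint_support, Finset.disjoint_left]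
    intro v h1 h2
    obtain ⟨b, hb⟩ := hsupp i v h1
    obtain ⟨b', hb'⟩ := hsupp j v h2
    rw [hb] at hb'
    have := z.injective hb'
    simp only [Prod.mk.injEq] at this
    exact absurd this.1 hij.ne
  ext v
  by_cases hv : v ∈ Set.range z
  · obtain ⟨⟨i, b⟩, rfl⟩ := hv
    rw [Perm.viaFintypeEmbedding_apply_image, flip_apply]
    have hm : f i ∈ List.ofFn f := by
      rw [List.mem_ofFn]
      exact ⟨i, rfl⟩
    have hs : z (i, b) ∈ (f i).support := by
      rw [hf]
      simp only
      rw [Perm.support_swap (hne i)]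
      cases b <;> simp
    rw [← Perm.eq_on_support_mem_disjoint hm hdis _ hs, hf]
    simp only
    cases b
    · simp
    · simp
  · rw [Perm.viaFintypeEmbedding_apply_notMem_range _ _ hv]
    have : ∀ l : List (Perm V), (∀ g ∈ l, g v = v) → l.prod v = v := by
      intro l
      induction l with
      | nil => intro _; rfl
      | cons g l ih =>
        intro h
        rw [List.prod_cons, Perm.mul_apply, ih (fun g' hg' => h g' (List.mem_cons_of_mem _ hg')),
          h g List.mem_cons_self]
    apply this
    intro g hg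
    rw [List.mem_ofFn] at hg
    obtain ⟨i, rfl⟩ := hg
    by_contra h
    rw [← ne_eq, ← Perm.mem_support] at h
    obtain ⟨b, hb⟩ := hsupp i v h
    exact hv ⟨(i, b), hb.symm⟩

lemma ext_conj {K : ℕ} (z : Fin K × Bool ↪ V) (π : Perm (Fin K × Bool)) :
    prodSw (fun i => (z (π (i, false)), z (π (i, true)))) =
      (π * flip K * π⁻¹).viaFintypeEmbedding z := by
  have h := prod_pairs (π.toEmbedding.trans z)
  have h1 : prodSw (fun i => (z (π (i, false)), z (π (i, true)))) =
      (flip K).viaFintypeEmbedding (π.toEmbedding.trans z) := h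
  rw [h1]
  ext v
  by_cases hv : v ∈ Set.range z
  · obtain ⟨x, rfl⟩ := hv
    rw [Perm.viaFintypeEmbedding_apply_image]
    have e1 : z x = (π.toEmbedding.trans z) (π⁻¹ x) := by
      simp
    rw [e1, Perm.viaFintypeEmbedding_apply_image]
    simp
  · rw [Perm.viaFintypeEmbedding_apply_notMem_range _ _ hv]
    rw [Perm.viaFintypeEmbedding_apply_notMem_range]
    rintro ⟨x, hx⟩
    apply hv
    exact ⟨π x, hx⟩

lemma random_pairs (K : ℕ) (y : Fin K × Bool → V) (F : Perm V → ℝ) (hy : Function.Injective y) :
    uavg (fun π : Perm (Fin K × Bool) =>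
      F (prodSw fun i => (y (π (i, false)), y (π (i, true))))) = avgM (univ.image y) F := by
  set z : Fin K × Bool ↪ V := ⟨y, hy⟩ with hz
  have e1 : ∀ π : Perm (Fin K × Bool), F (prodSw fun i => (y (π (i, false)), y (π (i, true)))) =
      F ((π * flip K * π⁻¹).viaFintypeEmbedding z) := by
    intro π
    rw [← ext_conj]
    rfl
  unfold uavg avgM
  rw [Finset.sum_congr rfl (fun π _ => e1 π),
    avg_conj (flip_mem K) (fun τ => F (τ.viaFintypeEmbedding z)), sum_ext z F]
  have e2 := card_ext z
  have e3 : univ.image z = univ.image y := rfl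
  rw [e3] at e2
  rw [e3, e2]

end pairs

/-- PD-MA -/
theorem main : S_match := by
  refine ⟨?_, ?_, ?_, ?_⟩
  · intro V _ _ E hE
    exact card_pos.1 (card_pos' hE)
  · intro V _ _ F
    unfold avgM
    rw [matchings_empty]
    simp
  · intro V _ _ E e F hE he
    exact recursion E e F hE he
  · intro V _ _ K y F hy
    exact random_pairs K y F hy

end Pool.Agent.W57.PD.Match
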